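import Mathlib
import Pool.Agent.H15.DC.Main

set_option autoImplicit false

namespace Pool.Agent.Results.MP_0ae067_co.AtMostTwentyVertices

open Pool.Agent.H15.DC

/-- **Every double-critical 6-chromatic graph with at most 20 vertices contains `K_4`.** -/
theorem result {V : Type*} [Fintype V] (G : SimpleGraph V)
    (hconn : G.Connected)
    (hchi : G.chromaticNumber = 6)
    (hdc : ∀ x y : V, G.Adj x y →
      (G.induce {v : V | v ≠ x ∧ v ≠ y}).chromaticNumber = 4)
    (hcard : Fintype.card V ≤ 20) :
    ¬ G.CliqueFree 4 := by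
  intro hK4
  have hG := hyp_of hchi hdc hK4
  obtain ⟨v0⟩ := hconn.nonempty
  have : Nonempty V := ⟨v0⟩
  have horder := hG.order (exists_nbr hconn hchi)
  omega

end Pool.Agent.Results.MP_0ae067_co.AtMostTwentyVertices
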