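import Mathlib
import Pool.Agent.H15.DC.Main

set_option autoImplicit false

namespace Pool.Agent.Results.MP_0ae067_co.DegreeAtMostTen

open Pool.Agent.H15.DC

/-- **Every double-critical 6-chromatic graph with a vertex of degree at most 10 contains
`K_4`.** -/
theorem result {V : Type*} [Fintype V] (G : SimpleGraph V)
    (hconn : G.Connected)
    (hchi : G.chromaticNumber = 6)
    (hdc : ∀ x y : V, G.Adj x y →
      (G.induce {v : V | v ≠ x ∧ v ≠ y}).chromaticNumber = 4)
    (hdeg : ∃ x : V, (G.neighborSet x).ncard ≤ 10) :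
    ¬ G.CliqueFree 4 := by
  classical
  intro hK4
  have hG := hyp_of hchi hdc hK4
  obtain ⟨x, hx⟩ := hdeg
  have h := hG.eleven_le x (exists_nbr hconn hchi x)
  rw [Set.ncard_eq_toFinset_card'] at hx
  have h3 : (G.neighborSet x).toFinset = G.neighborFinset x := by
    ext v
    simp [SimpleGraph.mem_neighborFinset]
  rw [h3] at hx
  omega

end Pool.Agent.Results.MP_0ae067_co.DegreeAtMostTen
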